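import Pool.Agent.Lib.MP_c23930_al.Main

/-!
# MP_c23930_al: uniformly exponential growth of groups with a homomorphism to `K wr G`

Let `K` be a field and `G` an infinite sofic group. Every finitely generated group `Γ` with a homomorphism
to the restricted wreath product `K wr G` which maps onto `G` and whose image contains a nontrivial element
`Φ ν` of the base has uniformly exponential growth: all balls of radius `n` have at least
`(1 + 1 / (64 k²)) ^ n` elements, where `k` is the size of the support of `Φ ν`.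
-/

set_option autoImplicit false

open scoped Pointwise

namespace Pool.Agent.Results.MP_c23930_al.WreathSofic

open Pool.Agent.Lib.MP_c23930_al

theorem result (K G Γ : Type) [Field K] [Group G] [Group Γ] [Infinite G] (hG : Sofic G)
    (Φ : Γ →* Wreath (Multiplicative K) G) (hΦ : ∀ g : G, ∃ γ : Γ, (Φ γ).right = g)
    (ν : Γ) (hν : (Φ ν).right = 1) (hν' : Φ ν ≠ 1)
    (S : Finset Γ) (hS : Subgroup.closure (S : Set Γ) = ⊤) (n : ℕ) :
    (1 + 1 / (64 * (Set.ncard (Function.mulSupport (Φ ν).left.1) : ℝ) ^ 2)) ^ n ≤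
      (Set.ncard (((S : Set Γ) ∪ (S : Set Γ)⁻¹ ∪ {1}) ^ n) : ℝ) := by
  classical
  have h := growth_hom hG Φ hΦ ν hν hν' S hS n
  have e : ((S : Set Γ) ∪ (S : Set Γ)⁻¹ ∪ {1}) ^ n = ((Bl S n : Finset Γ) : Set Γ) := by
    simp [Bl]
  rw [e, Set.ncard_coe_finset]
  exact h

end Pool.Agent.Results.MP_c23930_al.WreathSofic
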